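import Mathlib

/-!
# Nagata's theorem on invariants modulo stable ideals, graded case
-/

set_option autoImplicit false

namespace Pool.Agent.Helper53.TR

open DirectSum

section basic

variable {k A Γ : Type*} [Field k] [CommRing A] [Algebra k A] [Group Γ]

theorem rho_one (ρ : Representation k Γ A) (hmul : ∀ g a b, ρ g (a * b) = ρ g a * ρ g b) (g : Γ) :
    ρ g 1 = 1 := by
  have hsurj : ρ g (ρ g⁻¹ 1) = 1 := by
    have h0 : ρ g * ρ g⁻¹ = 1 := by rw [← map_mul, mul_inv_cancel, map_one]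
    have : (ρ g * ρ g⁻¹) 1 = (1 : A) := by rw [h0]; rfl
    exact this
  have h := hmul g 1 (ρ g⁻¹ 1)
  rw [one_mul, hsurj, mul_one] at h
  exact h.symm

/-- elements invariant modulo `I` -/
def Inv (ρ : Representation k Γ A) (hmul : ∀ g a b, ρ g (a * b) = ρ g a * ρ g b) (I : Ideal A) :
    Subalgebra k A where
  carrier := {a | ∀ g, ρ g a - a ∈ I}
  mul_mem' := by
    intro a b ha hb g
    have : ρ g (a * b) - a * b = (ρ g a - a) * ρ g b + a * (ρ g b - b) := by
      rw [hmul]; ring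
    rw [this]
    exact I.add_mem (I.mul_mem_right _ (ha g)) (I.mul_mem_left _ (hb g))
  add_mem' := by
    intro a b ha hb g
    have : ρ g (a + b) - (a + b) = (ρ g a - a) + (ρ g b - b) := by
      rw [map_add]; ring
    rw [this]
    exact I.add_mem (ha g) (hb g)
  algebraMap_mem' := by
    intro c g
    have : ρ g (algebraMap k A c) = algebraMap k A c := by
      rw [Algebra.algebraMap_eq_smul_one, map_smul, rho_one ρ hmul]
    rw [this, sub_self]
    exact I.zero_mem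

variable (ρ : Representation k Γ A) (hmul : ∀ g a b, ρ g (a * b) = ρ g a * ρ g b)

theorem mem_Inv {I : Ideal A} {a : A} : a ∈ Inv ρ hmul I ↔ ∀ g, ρ g a - a ∈ I := Iff.rfl

theorem Inv_mono {I J : Ideal A} (h : I ≤ J) : Inv ρ hmul I ≤ Inv ρ hmul J :=
  fun _ ha g => h (ha g)

theorem ideal_le_Inv {I : Ideal A} (hI : ∀ g, ∀ a ∈ I, ρ g a ∈ I) {a : A} (ha : a ∈ I) :
    a ∈ Inv ρ hmul I := fun g => I.sub_mem (hI g a ha) ha

/-- `P(I)` -/
def PP (I : Ideal A) : Prop :=
  ∃ s : Finset A, (∀ f ∈ s, f ∈ Inv ρ hmul I) ∧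
      ∀ a ∈ Inv ρ hmul I, ∃ b ∈ Algebra.adjoin k (s : Set A), a - b ∈ I

/-- Lemma N -/
theorem lemN (hpow : ∀ J : Ideal A, (∀ g, ∀ a ∈ J, ρ g a ∈ J) → ∀ a : A, (∀ g, ρ g a - a ∈ J) →
      ∃ q : ℕ, 1 ≤ q ∧ ∃ F : A, (∀ g, ρ g F = F) ∧ F - a ^ q ∈ J)
    (J : Ideal A) (hJ : ∀ g, ∀ a ∈ J, ρ g a ∈ J) (hP : PP ρ hmul J) :
    ∃ X : Finset A, (∀ x ∈ X, ∀ g, ρ g x = x) ∧
      ∀ W : Submodule (Algebra.adjoin k (X : Set A)) A, (∀ w ∈ W, w ∈ Inv ρ hmul J) →
        ∃ T : Finset A, (∀ t ∈ T, t ∈ W) ∧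
          ∀ w ∈ W, ∃ b ∈ Submodule.span (Algebra.adjoin k (X : Set A)) (T : Set A), w - b ∈ J := by
  classical
  obtain ⟨F, hF, hFs⟩ := hP
  choose q hq x' hx' hxq using fun (a : A) (ha : a ∈ Inv ρ hmul J) => hpow J hJ a ha
  let X : Finset A := F.attach.image (fun a => x' a.1 (hF a.1 a.2))
  refine ⟨X, ?_, ?_⟩
  · intro x hx
    simp only [X, Finset.mem_image, Finset.mem_attach, true_and, Subtype.exists] at hx
    obtain ⟨a, ha, rfl⟩ := hx
    exact hx' a _
  set D := Algebra.adjoin k (X : Set A) with hD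
  intro W hW
  have hDnoeth : IsNoetherianRing D := by
    have : Algebra.FiniteType k D :=
      (Subalgebra.fg_iff_finiteType _).1 (Subalgebra.fg_adjoin_finset X)
    exact Algebra.FiniteType.isNoetherianRing k D
  let π : A →ₐ[D] (A ⧸ J) := Ideal.Quotient.mkₐ D J
  -- the finite module
  have hfin : (Subalgebra.toSubmodule (Algebra.adjoin D (π '' (F : Set A)))).FG := by
    apply fg_adjoin_of_finite (Set.Finite.image _ F.finite_toSet)
    rintro _ ⟨a, ha, rfl⟩
    have ha' : a ∈ F := ha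
    refine IsIntegral.of_pow (n := q a (hF a ha')) (hq _ _) ?_
    have hxD : x' a (hF a ha') ∈ D := by
      apply Algebra.subset_adjoin
      simp only [X, Finset.coe_image, Set.mem_image]
      exact ⟨⟨a, ha'⟩, by simp, rfl⟩
    have h1 : π a ^ q a (hF a ha') = algebraMap D (A ⧸ J) ⟨x' a (hF a ha'), hxD⟩ := by
      rw [← map_pow]
      show Ideal.Quotient.mk J _ = Ideal.Quotient.mk J _
      rw [Ideal.Quotient.eq]
      have := J.neg_mem (hxq a (hF a ha'))
      rw [neg_sub] at this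
      exact this
    rw [h1]
    exact isIntegral_algebraMap
  set N := Subalgebra.toSubmodule (Algebra.adjoin D (π '' (F : Set A))) with hN
  have hNn : IsNoetherian D N := isNoetherian_of_fg_of_noetherian N hfin
  have hmap : W.map π.toLinearMap ≤ N := by
    rintro _ ⟨w, hw, rfl⟩
    obtain ⟨b, hb, hwb⟩ := hFs w (hW w hw)
    have h1 : π w = π b := by
      show Ideal.Quotient.mk J _ = Ideal.Quotient.mk J _
      rw [Ideal.Quotient.eq]
      exact hwb
    show π w ∈ N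
    rw [h1]
    show π b ∈ Algebra.adjoin D (π '' (F : Set A))
    clear h1 hwb
    induction hb using Algebra.adjoin_induction with
    | mem x hx => exact Algebra.subset_adjoin ⟨x, hx, rfl⟩
    | algebraMap c =>
      have : π (algebraMap k A c) = algebraMap D (A ⧸ J) (algebraMap k D c) := rfl
      rw [this]
      exact Subalgebra.algebraMap_mem _ _
    | add x y _ _ hx hy => rw [map_add]; exact add_mem hx hy
    | mul x y _ _ hx hy => rw [map_mul]; exact mul_mem hx hy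
  have hWfg : (W.map π.toLinearMap).FG := by
    have h2 := (isNoetherian_submodule.1 hNn) (W.map π.toLinearMap) hmap
    exact h2
  obtain ⟨t, ht⟩ := hWfg
  have hlift : ∀ y ∈ t, ∃ w ∈ W, π w = y := by
    intro y hy
    have : y ∈ W.map π.toLinearMap := by
      rw [← ht]; exact Submodule.subset_span hy
    obtain ⟨w, hw, hwy⟩ := this
    exact ⟨w, hw, hwy⟩
  choose! l hlW hl using hlift
  refine ⟨t.image l, ?_, ?_⟩
  · intro x hx
    obtain ⟨y, hy, rfl⟩ := Finset.mem_image.1 hx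
    exact hlW y hy
  intro w hw
  have h1 : π w ∈ Submodule.span D (t : Set (A ⧸ J)) := by
    rw [ht]; exact ⟨w, hw, rfl⟩
  have h2 : (Submodule.span D (t : Set (A ⧸ J))) ≤
      (Submodule.span D ((t.image l : Finset A) : Set A)).map π.toLinearMap := by
    rw [Submodule.span_le]
    intro y hy
    exact ⟨l y, Submodule.subset_span (by
      rw [Finset.coe_image]; exact ⟨y, hy, rfl⟩), hl y hy⟩
  obtain ⟨b, hb, hbw⟩ := h2 h1
  refine ⟨b, hb, ?_⟩
  have h3 : π w = π b := hbw.symm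
  have h4 : Ideal.Quotient.mk J w = Ideal.Quotient.mk J b := h3
  exact (Ideal.Quotient.eq).1 h4

end basic

section graded

variable {k A Γ : Type*} [Field k] [CommRing A] [Algebra k A] [Group Γ]
variable (ρ : Representation k Γ A) (hmul : ∀ g a b, ρ g (a * b) = ρ g a * ρ g b)
variable (𝒜 : ℕ → Submodule k A) [GradedAlgebra 𝒜]

/-- the support of an element -/
noncomputable def supp (a : A) : Finset ℕ := by
  classical
  exact (decompose 𝒜 a).support

theorem proj_eq_zero_of_notMem {a : A} {i : ℕ} (hi : i ∉ supp 𝒜 a) :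
    GradedAlgebra.proj 𝒜 i a = 0 := by
  classical
  unfold supp at hi
  rw [DFinsupp.notMem_support_iff] at hi
  show ((decompose 𝒜 a i : 𝒜 i) : A) = 0
  rw [hi]; rfl

theorem sum_proj (a : A) :
    ∑ i ∈ supp 𝒜 a, GradedAlgebra.proj 𝒜 i a = a := by
  classical
  unfold supp
  exact sum_support_decompose 𝒜 a

theorem proj_mem (a : A) (i : ℕ) : GradedAlgebra.proj 𝒜 i a ∈ 𝒜 i :=
  (decompose 𝒜 a i).2

theorem proj_of_mem {a : A} {i : ℕ} (ha : a ∈ 𝒜 i) : GradedAlgebra.proj 𝒜 i a = a :=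
  decompose_of_mem_same 𝒜 ha

theorem proj_of_mem_ne {a : A} {i j : ℕ} (ha : a ∈ 𝒜 i) (h : i ≠ j) :
    GradedAlgebra.proj 𝒜 j a = 0 :=
  decompose_of_mem_ne 𝒜 ha h

theorem rho_proj (hgr : ∀ g i, ∀ a ∈ 𝒜 i, ρ g a ∈ 𝒜 i) (g : Γ) (a : A) (i : ℕ) :
    ρ g (GradedAlgebra.proj 𝒜 i a) = GradedAlgebra.proj 𝒜 i (ρ g a) := by
  classical
  conv_rhs => rw [← sum_proj 𝒜 a, map_sum, map_sum]
  have h : ∀ j ∈ supp 𝒜 a,
      GradedAlgebra.proj 𝒜 i (ρ g (GradedAlgebra.proj 𝒜 j a)) =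
        if j = i then ρ g (GradedAlgebra.proj 𝒜 i a) else 0 := by
    intro j _
    split_ifs with hji
    · subst hji
      exact proj_of_mem 𝒜 (hgr g _ _ (proj_mem 𝒜 a _))
    · exact proj_of_mem_ne 𝒜 (hgr g _ _ (proj_mem 𝒜 a _)) hji
  rw [Finset.sum_congr rfl h, Finset.sum_ite_eq']
  split_ifs with hi
  · rfl
  · rw [proj_eq_zero_of_notMem 𝒜 hi, map_zero]

theorem mem_iff_proj {I : Ideal A} (hIh : I.IsHomogeneous 𝒜) (a : A) :
    a ∈ I ↔ ∀ i, GradedAlgebra.proj 𝒜 i a ∈ I := hIh.mem_iff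

theorem Inv_proj (hgr : ∀ g i, ∀ a ∈ 𝒜 i, ρ g a ∈ 𝒜 i) {I : Ideal A} (hIh : I.IsHomogeneous 𝒜)
    {a : A} (ha : a ∈ Inv ρ hmul I) (i : ℕ) : GradedAlgebra.proj 𝒜 i a ∈ Inv ρ hmul I := by
  intro g
  rw [rho_proj ρ 𝒜 hgr, ← map_sub]
  exact (mem_iff_proj 𝒜 hIh _).1 (ha g) i

/-- multiplication by a homogeneous element and components -/
theorem proj_mul_of_le {f : A} {d e : ℕ} (hf : f ∈ 𝒜 d) (h : d ≤ e) (s : A) :
    GradedAlgebra.proj 𝒜 e (f * s) = f * GradedAlgebra.proj 𝒜 (e - d) s :=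
  coe_decompose_mul_of_left_mem_of_le 𝒜 hf h

theorem proj_mul_of_not_le {f : A} {d e : ℕ} (hf : f ∈ 𝒜 d) (h : ¬ d ≤ e) (s : A) :
    GradedAlgebra.proj 𝒜 e (f * s) = 0 :=
  coe_decompose_mul_of_left_mem_of_not_le 𝒜 hf h

theorem adjoin_proj (F F' : Set A) (h : ∀ x ∈ F, ∀ i, GradedAlgebra.proj 𝒜 i x ∈
    Algebra.adjoin k F') {c : A} (hc : c ∈ Algebra.adjoin k F) (i : ℕ) :
    GradedAlgebra.proj 𝒜 i c ∈ Algebra.adjoin k F' := by
  classical
  induction hc using Algebra.adjoin_induction generalizing i with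
  | mem x hx => exact h x hx i
  | algebraMap c =>
    have h0 : algebraMap k A c ∈ 𝒜 0 := SetLike.algebraMap_mem_graded 𝒜 c
    by_cases hi : i = 0
    · subst hi
      rw [proj_of_mem 𝒜 h0]
      exact Subalgebra.algebraMap_mem _ _
    · rw [proj_of_mem_ne 𝒜 h0 (Ne.symm hi)]
      exact zero_mem _
  | add x y _ _ hx hy => rw [map_add]; exact add_mem (hx i) (hy i)
  | mul x y _ _ hx hy =>
    have : GradedAlgebra.proj 𝒜 i (x * y) = ∑ j ∈ supp 𝒜 x,
        GradedAlgebra.proj 𝒜 i (GradedAlgebra.proj 𝒜 j x * y) := by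
      conv_lhs => rw [← sum_proj 𝒜 x, Finset.sum_mul, map_sum]
    rw [this]
    refine sum_mem fun j _ => ?_
    by_cases hji : j ≤ i
    · rw [proj_mul_of_le 𝒜 (proj_mem 𝒜 x j) hji]
      exact mul_mem (hx j) (hy (i - j))
    · rw [proj_mul_of_not_le 𝒜 (proj_mem 𝒜 x j) hji]
      exact zero_mem _

/-- the set of homogeneous components of a finite set -/
noncomputable def comps (F : Finset A) : Finset A := by
  classical
  exact F.biUnion fun a => (supp 𝒜 a).image fun i => GradedAlgebra.proj 𝒜 i a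

theorem mem_comps {F : Finset A} {x : A} (hx : x ∈ comps 𝒜 F) :
    ∃ a ∈ F, ∃ i, x = GradedAlgebra.proj 𝒜 i a := by
  classical
  unfold comps at hx
  simp only [Finset.mem_biUnion, Finset.mem_image] at hx
  obtain ⟨a, ha, i, _, rfl⟩ := hx
  exact ⟨a, ha, i, rfl⟩

theorem proj_mem_adjoin_comps {F : Finset A} {x : A} (hx : x ∈ F) (i : ℕ) (T : Set A)
    (hT : (comps 𝒜 F : Set A) ⊆ T) :
    GradedAlgebra.proj 𝒜 i x ∈ Algebra.adjoin k T := by
  classical
  by_cases hi : i ∈ supp 𝒜 x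
  · apply Algebra.subset_adjoin
    apply hT
    unfold comps
    simp only [Finset.coe_biUnion, Set.mem_iUnion, Finset.coe_image, Set.mem_image]
    exact ⟨x, hx, i, hi, rfl⟩
  · rw [proj_eq_zero_of_notMem 𝒜 hi]
    exact zero_mem _

end graded

section main

theorem span_le_adjoin {k A : Type*} [Field k] [CommRing A] [Algebra k A] (X T : Set A) {b : A}
    (hb : b ∈ Submodule.span (Algebra.adjoin k X) T) (B : Subalgebra k A) (hX : X ⊆ B)
    (hT : T ⊆ B) : b ∈ B := by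
  have hXB : Algebra.adjoin k X ≤ B := Algebra.adjoin_le hX
  induction hb using Submodule.span_induction with
  | mem x hx => exact hT hx
  | zero => exact zero_mem _
  | add x y _ _ hx hy => exact add_mem hx hy
  | smul a x _ hx =>
    rw [Subalgebra.smul_def]
    exact mul_mem (hXB a.2) hx

theorem nagata_graded {k A Γ : Type*} [Field k] [CommRing A] [Algebra k A] [IsNoetherianRing A]
    [Group Γ] (ρ : Representation k Γ A) (hmul : ∀ g a b, ρ g (a * b) = ρ g a * ρ g b)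
    (𝒜 : ℕ → Submodule k A) [GradedAlgebra 𝒜]
    (h0 : ∀ a ∈ 𝒜 0, ∃ c : k, a = algebraMap k A c)
    (hgr : ∀ g i, ∀ a ∈ 𝒜 i, ρ g a ∈ 𝒜 i)
    (hpow : ∀ J : Ideal A, (∀ g, ∀ a ∈ J, ρ g a ∈ J) → ∀ a : A, (∀ g, ρ g a - a ∈ J) →
      ∃ q : ℕ, 1 ≤ q ∧ ∃ F : A, (∀ g, ρ g F = F) ∧ F - a ^ q ∈ J)
    (I : Ideal A) (hI : ∀ g, ∀ a ∈ I, ρ g a ∈ I) (hIh : I.IsHomogeneous 𝒜) :
    ∃ s : Finset A, (∀ f ∈ s, ∀ g, ρ g f - f ∈ I) ∧
      ∀ a : A, (∀ g, ρ g a - a ∈ I) → ∃ b ∈ Algebra.adjoin k (s : Set A), a - b ∈ I := by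
  classical
  suffices H : ∀ I : Ideal A, (∀ g, ∀ a ∈ I, ρ g a ∈ I) → I.IsHomogeneous 𝒜 → PP ρ hmul I by
    obtain ⟨s, hs, hs'⟩ := H I hI hIh
    exact ⟨s, hs, fun a ha => hs' a ha⟩
  intro I
  induction I using WellFoundedGT.induction with
  | ind I ih =>
  intro hI hIh
  by_cases hcase : ∀ d > 0, ∀ f ∈ 𝒜 d, f ∈ Inv ρ hmul I → f ∈ I
  · -- trivial case
    refine ⟨∅, by simp, fun a ha => ?_⟩
    obtain ⟨c, hc⟩ := h0 _ (proj_mem 𝒜 a 0)
    refine ⟨algebraMap k A c, Subalgebra.algebraMap_mem _ _, ?_⟩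
    rw [← hc, mem_iff_proj 𝒜 hIh]
    intro i
    rw [map_sub]
    rcases Nat.eq_zero_or_pos i with hi | hi
    · subst hi
      rw [proj_of_mem 𝒜 (proj_mem 𝒜 a 0), sub_self]
      exact I.zero_mem
    · rw [proj_of_mem_ne 𝒜 (proj_mem 𝒜 a 0) hi.ne, sub_zero]
      exact hcase i hi _ (proj_mem 𝒜 a i) (Inv_proj ρ hmul 𝒜 hgr hIh ha i)
  push Not at hcase
  obtain ⟨d, hd, f, hfd, hfI, hfn⟩ := hcase
  -- the ideal `J₁ = I + (f)`
  set J₁ : Ideal A := I ⊔ Ideal.span {f} with hJ₁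
  have hIJ₁ : I ≤ J₁ := le_sup_left
  have hfJ₁ : f ∈ J₁ := Ideal.mem_sup_right (Ideal.mem_span_singleton_self f)
  have hlt₁ : I < J₁ := lt_of_le_of_ne hIJ₁ (fun h => hfn (h ▸ hfJ₁))
  have hmem₁ : ∀ x, x ∈ J₁ ↔ ∃ i ∈ I, ∃ s, x = i + f * s := by
    intro x
    rw [hJ₁, Submodule.mem_sup]
    constructor
    · rintro ⟨y, hy, z, hz, rfl⟩
      obtain ⟨s, rfl⟩ := Ideal.mem_span_singleton'.1 hz
      exact ⟨y, hy, s, by ring⟩
    · rintro ⟨y, hy, s, rfl⟩
      exact ⟨y, hy, f * s, Ideal.mem_span_singleton'.2 ⟨s, by ring⟩, rfl⟩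
  have hst₁ : ∀ g, ∀ a ∈ J₁, ρ g a ∈ J₁ := by
    intro g a ha
    obtain ⟨i, hi, s, rfl⟩ := (hmem₁ a).1 ha
    rw [map_add, hmul]
    refine J₁.add_mem (hIJ₁ (hI g i hi)) (J₁.mul_mem_right _ ?_)
    have := J₁.add_mem (hIJ₁ (hfI g)) hfJ₁
    rwa [sub_add_cancel] at this
  have hh₁ : J₁.IsHomogeneous 𝒜 := by
    apply Ideal.IsHomogeneous.sup hIh
    apply Ideal.homogeneous_span
    rintro x rfl
    exact ⟨d, hfd⟩
  have hP₁ := ih J₁ hlt₁ hst₁ hh₁
  obtain ⟨X, hX, hXW⟩ := lemN ρ hmul hpow J₁ hst₁ hP₁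
  -- `Inv I` as a module over the invariants
  have hXI : Algebra.adjoin k (X : Set A) ≤ Inv ρ hmul I := by
    apply Algebra.adjoin_le
    intro x hx g
    rw [hX x hx g, sub_self]
    exact I.zero_mem
  let W : Submodule (Algebra.adjoin k (X : Set A)) A :=
    { carrier := {a | a ∈ Inv ρ hmul I}
      add_mem' := fun ha hb => (Inv ρ hmul I).add_mem ha hb
      zero_mem' := (Inv ρ hmul I).zero_mem
      smul_mem' := by
        intro c x hx
        rw [Subalgebra.smul_def]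
        exact (Inv ρ hmul I).mul_mem (hXI c.2) hx }
  obtain ⟨T, hTW, hT⟩ := hXW W (fun w hw => Inv_mono ρ hmul hIJ₁ hw)
  have hTI : ∀ t ∈ T, t ∈ Inv ρ hmul I := hTW
  have hkey : ∀ r ∈ Inv ρ hmul I, ∃ c ∈ Algebra.adjoin k ((X ∪ T : Finset A) : Set A),
      r - c ∈ J₁ := by
    intro r hr
    obtain ⟨b, hb, hrb⟩ := hT r hr
    refine ⟨b, ?_, hrb⟩
    apply span_le_adjoin _ _ hb
    · intro x hx
      exact Algebra.subset_adjoin (by simp [Finset.mem_coe.1 hx])
    · intro x hx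
      exact Algebra.subset_adjoin (by simp [Finset.mem_coe.1 hx])
  have hXTI : ∀ x ∈ X ∪ T, x ∈ Inv ρ hmul I := by
    intro x hx
    rcases Finset.mem_union.1 hx with hx | hx
    · exact hXI (Algebra.subset_adjoin hx)
    · exact hTI x hx
  -- the ideal `J₂ = (I : f)`
  let J₂ : Ideal A :=
    { carrier := {r | f * r ∈ I}
      add_mem' := by
        intro a b ha hb
        show f * (a + b) ∈ I
        rw [mul_add]; exact I.add_mem ha hb
      zero_mem' := by
        show f * 0 ∈ I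
        rw [mul_zero]; exact I.zero_mem
      smul_mem' := by
        intro c x hx
        show f * (c • x) ∈ I
        rw [smul_eq_mul, mul_left_comm]
        exact I.mul_mem_left _ hx }
  have hmem₂ : ∀ r, r ∈ J₂ ↔ f * r ∈ I := fun r => Iff.rfl
  have hIJ₂ : I ≤ J₂ := fun r hr => I.mul_mem_left _ hr
  have hdiff : ∀ s, f * s ∈ Inv ρ hmul I → s ∈ Inv ρ hmul J₂ := by
    intro s hs g
    rw [hmem₂]
    have h1 := hs g
    have h2 : f * (ρ g s - s) = (ρ g (f * s) - f * s) - (ρ g f - f) * ρ g s := by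
      rw [hmul]; ring
    rw [h2]
    exact I.sub_mem h1 (I.mul_mem_right _ (hfI g))
  have hdiff' : ∀ s, s ∈ Inv ρ hmul J₂ → f * s ∈ Inv ρ hmul I := by
    intro s hs g
    have h1 : f * (ρ g s - s) ∈ I := hs g
    have h2 : ρ g (f * s) - f * s = f * (ρ g s - s) + (ρ g f - f) * ρ g s := by
      rw [hmul]; ring
    rw [h2]
    exact I.add_mem h1 (I.mul_mem_right _ (hfI g))
  by_cases hJ₂ : J₂ = I
  · -- induction on the degree
    set B := Algebra.adjoin k ((comps 𝒜 (X ∪ T) ∪ {f} : Finset A) : Set A) with hB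
    have hBgen : ∀ x ∈ comps 𝒜 (X ∪ T) ∪ {f}, x ∈ Inv ρ hmul I := by
      intro x hx
      rcases Finset.mem_union.1 hx with hx | hx
      · obtain ⟨a, ha, i, rfl⟩ := mem_comps 𝒜 hx
        exact Inv_proj ρ hmul 𝒜 hgr hIh (hXTI a ha) i
      · rw [Finset.mem_singleton.1 hx]; exact hfI
    have hBI : B ≤ Inv ρ hmul I := Algebra.adjoin_le hBgen
    have hfB : f ∈ B := Algebra.subset_adjoin (by simp)
    have hdeg : ∀ e, ∀ r ∈ 𝒜 e, r ∈ Inv ρ hmul I → ∃ b ∈ B, r - b ∈ I := by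
      intro e
      induction e using Nat.strong_induction_on with
      | _ e ihe =>
      intro r hre hr
      obtain ⟨c, hc, hrc⟩ := hkey r hr
      set c' := GradedAlgebra.proj 𝒜 e c with hc'
      have hc'B : c' ∈ B := by
        refine adjoin_proj 𝒜 _ _ ?_ hc e
        intro x hx i
        exact proj_mem_adjoin_comps 𝒜 hx i _ (by
          intro y hy
          simp only [Finset.coe_union, Set.mem_union]
          exact Or.inl hy)
      have hrc' : r - c' ∈ J₁ := by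
        have := (mem_iff_proj 𝒜 hh₁ _).1 hrc e
        rwa [map_sub, proj_of_mem 𝒜 hre] at this
      obtain ⟨i, hi, s, his⟩ := (hmem₁ _).1 hrc'
      have hi' : GradedAlgebra.proj 𝒜 e i ∈ I := (mem_iff_proj 𝒜 hIh _).1 hi e
      have hproj : r - c' = GradedAlgebra.proj 𝒜 e i + GradedAlgebra.proj 𝒜 e (f * s) := by
        rw [← map_add, ← his, map_sub, proj_of_mem 𝒜 hre, hc',
          proj_of_mem 𝒜 (proj_mem 𝒜 c e)]
      by_cases hde : d ≤ e
      · rw [proj_mul_of_le 𝒜 hfd hde] at hproj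
        set s' := GradedAlgebra.proj 𝒜 (e - d) s with hs'
        have hfs : f * s' ∈ Inv ρ hmul I := by
          have : f * s' = r - c' - GradedAlgebra.proj 𝒜 e i := by rw [hproj]; ring
          rw [this]
          exact sub_mem (sub_mem hr (hBI hc'B)) (ideal_le_Inv ρ hmul hI hi')
        have hs'I : s' ∈ Inv ρ hmul I := by
          have := hdiff s' hfs
          rwa [hJ₂] at this
        obtain ⟨b', hb', hsb'⟩ := ihe (e - d) (by omega) s' (proj_mem 𝒜 s _) hs'I
        refine ⟨c' + f * b', add_mem hc'B (mul_mem hfB hb'), ?_⟩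
        have : r - (c' + f * b') = GradedAlgebra.proj 𝒜 e i + f * (s' - b') := by
          have h3 : r - (c' + f * b') = (r - c') - f * b' := by ring
          rw [h3, hproj]; ring
        rw [this]
        exact I.add_mem hi' (I.mul_mem_left _ hsb')
      · rw [proj_mul_of_not_le 𝒜 hfd hde, add_zero] at hproj
        exact ⟨c', hc'B, by rw [hproj]; exact hi'⟩
    refine ⟨comps 𝒜 (X ∪ T) ∪ {f}, hBgen, fun a ha => ?_⟩
    choose b hb hab using fun i : ℕ => hdeg i _ (proj_mem 𝒜 a i) (Inv_proj ρ hmul 𝒜 hgr hIh ha i)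
    refine ⟨∑ i ∈ supp 𝒜 a, b i, sum_mem fun i _ => hb i, ?_⟩
    have : a - ∑ i ∈ supp 𝒜 a, b i =
        ∑ i ∈ supp 𝒜 a, (GradedAlgebra.proj 𝒜 i a - b i) := by
      rw [Finset.sum_sub_distrib, sum_proj 𝒜 a]
    rw [this]
    exact sum_mem fun i _ => hab i
  · -- use `J₂`
    have hlt₂ : I < J₂ := lt_of_le_of_ne hIJ₂ (fun h => hJ₂ h.symm)
    have hst₂ : ∀ g, ∀ a ∈ J₂, ρ g a ∈ J₂ := by
      intro g a ha
      rw [hmem₂] at ha ⊢
      have h1 := hI g _ ha
      rw [hmul] at h1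
      have h2 : f * ρ g a = ρ g f * ρ g a - (ρ g f - f) * ρ g a := by ring
      rw [h2]
      exact I.sub_mem h1 (I.mul_mem_right _ (hfI g))
    have hh₂ : J₂.IsHomogeneous 𝒜 := by
      intro i r hr
      have hr' : f * r ∈ I := hr
      show f * _ ∈ I
      have h1 := (mem_iff_proj 𝒜 hIh _).1 hr' (d + i)
      rw [proj_mul_of_le 𝒜 hfd (by omega)] at h1
      have h2 : d + i - d = i := by omega
      rw [h2] at h1
      exact h1
    have hP₂ := ih J₂ hlt₂ hst₂ hh₂
    obtain ⟨X₂, hX₂, hXW₂⟩ := lemN ρ hmul hpow J₂ hst₂ hP₂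
    have hX₂I : Algebra.adjoin k (X₂ : Set A) ≤ Inv ρ hmul J₂ := by
      apply Algebra.adjoin_le
      intro x hx g
      rw [hX₂ x hx g, sub_self]
      exact J₂.zero_mem
    let W₂ : Submodule (Algebra.adjoin k (X₂ : Set A)) A :=
      { carrier := {a | a ∈ Inv ρ hmul J₂}
        add_mem' := fun ha hb => (Inv ρ hmul J₂).add_mem ha hb
        zero_mem' := (Inv ρ hmul J₂).zero_mem
        smul_mem' := by
          intro c x hx
          rw [Subalgebra.smul_def]
          exact (Inv ρ hmul J₂).mul_mem (hX₂I c.2) hx }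
    obtain ⟨T₂, hTW₂, hT₂⟩ := hXW₂ W₂ (fun w hw => hw)
    have hTI₂ : ∀ t ∈ T₂, t ∈ Inv ρ hmul J₂ := hTW₂
    set S : Finset A := (X ∪ T) ∪ (X₂ ∪ T₂.image (fun t => f * t)) with hS
    have hSI : ∀ x ∈ S, x ∈ Inv ρ hmul I := by
      intro x hx
      rcases Finset.mem_union.1 hx with hx | hx
      · exact hXTI x hx
      rcases Finset.mem_union.1 hx with hx | hx
      · intro g
        rw [hX₂ x hx g, sub_self]
        exact I.zero_mem
      · obtain ⟨t, ht, rfl⟩ := Finset.mem_image.1 hx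
        exact hdiff' t (hTI₂ t ht)
    set B := Algebra.adjoin k (S : Set A) with hB
    have hBI : B ≤ Inv ρ hmul I := Algebra.adjoin_le hSI
    refine ⟨S, hSI, fun r hr => ?_⟩
    obtain ⟨c, hc, hrc⟩ := hkey r hr
    have hcB : c ∈ B := by
      refine Algebra.adjoin_mono ?_ hc
      intro x hx
      exact Finset.mem_coe.2 (Finset.mem_union_left _ (Finset.mem_coe.1 hx))
    obtain ⟨i, hi, s, his⟩ := (hmem₁ _).1 hrc
    have hfs : f * s ∈ Inv ρ hmul I := by
      have : f * s = r - c - i := by rw [his]; ring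
      rw [this]
      exact sub_mem (sub_mem hr (hBI hcB)) (ideal_le_Inv ρ hmul hI hi)
    obtain ⟨b, hb, hsb⟩ := hT₂ s (hdiff s hfs)
    have hfb : f * b ∈ B := by
      clear hsb
      have hXB : Algebra.adjoin k (X₂ : Set A) ≤ B := by
        apply Algebra.adjoin_mono
        intro x hx
        exact Finset.mem_coe.2 (Finset.mem_union_right _
          (Finset.mem_union_left _ (Finset.mem_coe.1 hx)))
      induction hb using Submodule.span_induction with
      | mem x hx =>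
        apply Algebra.subset_adjoin
        exact Finset.mem_coe.2 (Finset.mem_union_right _
          (Finset.mem_union_right _ (Finset.mem_image.2 ⟨x, hx, rfl⟩)))
      | zero => rw [mul_zero]; exact zero_mem _
      | add x y _ _ hx hy => rw [mul_add]; exact add_mem hx hy
      | smul a x _ hx =>
        rw [Subalgebra.smul_def, smul_eq_mul, mul_left_comm]
        exact mul_mem (hXB a.2) hx
    refine ⟨c + f * b, add_mem hcB hfb, ?_⟩
    have h3 : r - (c + f * b) = i + f * (s - b) := by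
      have : r - (c + f * b) = (r - c) - f * b := by ring
      rw [this, his]; ring
    rw [h3]
    exact I.add_mem hi hsb

end main

end Pool.Agent.Helper53.TR
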